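import Pool.Agent.Lib.MP_611141_gt.Main

/-!
# Causal completeness of r-th symmetric pseudo-Riemannian manifolds

For an indefinite pseudo-Riemannian manifold with `∇^r R = 0`, timelike, lightlike and spacelike
completeness are equivalent.
-/

set_option autoImplicit false

open scoped ContDiff Manifold

namespace Pool.Agent.Results.MP_611141_gt.CausalCompleteness

open Pool.Agent.Lib.MP_611141_gt

/-- Let `M` be a smooth Hausdorff manifold modelled on a finite dimensional real vector space, with
a smooth pseudo-Riemannian metric `g` of indefinite signature with `∇^r R = 0`. Then completeness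
for one of the causal types `σ` (timelike `-1`, lightlike `0`, spacelike `1`) is equivalent to
completeness for any other causal type `τ`. -/
theorem result {E M : Type} [NormedAddCommGroup E] [NormedSpace ℝ E] [FiniteDimensional ℝ E]
    [TopologicalSpace M] [T2Space M] [ChartedSpace E M] [IsManifold 𝓘(ℝ, E) ∞ M]
    (g : PseudoMetric E M) (r : ℕ) (hr : g.IsSymmetricOfOrder r) (hind : g.IsIndefinite)
    (σ τ : SignType) : g.CausallyComplete σ ↔ g.CausallyComplete τ :=
  ⟨fun h _ _ hγ _ => PseudoMetric.geodesicallyComplete hr hind h hγ,
    fun h _ _ hγ _ => PseudoMetric.geodesicallyComplete hr hind h hγ⟩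

end Pool.Agent.Results.MP_611141_gt.CausalCompleteness
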